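import Pool.Agent.H58.BL.Stm5

set_option autoImplicit false

open Module

namespace Pool.Agent.H440.BL

theorem net {E : Type} [NormedAddCommGroup E] [NormedSpace ℝ E] [FiniteDimensional ℝ E] :
    ∃ S : Finset E, S.card ≤ 5 ^ finrank ℝ E ∧ ∀ x : E, ‖x‖ ≤ 1 → ∃ c ∈ S, ‖x - c‖ ≤ 1 / 2 := by
  classical
  let P : Finset E → Prop := fun S => (∀ c ∈ S, ‖c‖ ≤ 2) ∧ ∀ c ∈ S, ∀ d ∈ S, c ≠ d → 1 ≤ ‖c - d‖
  let A : Set ℕ := {m | ∃ S : Finset E, P S ∧ S.card = m}
  have hA : A.Nonempty := ⟨0, ∅, ⟨by simp, by simp⟩, by simp⟩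
  have hB : BddAbove A := ⟨5 ^ finrank ℝ E, by
    rintro m ⟨S, hS, rfl⟩
    exact Besicovitch.card_le_of_separated S hS.1 hS.2⟩
  obtain ⟨S, hS, hc⟩ := Nat.sSup_mem hA hB
  have hmax : ∀ x : E, ‖x‖ ≤ 2 → ∃ c ∈ S, ‖x - c‖ < 1 := by
    intro x hx
    by_contra hcon
    push_neg at hcon
    have hxS : x ∉ S := by
      intro h
      have := hcon x h
      simp at this
      linarith
    have h1 : P (insert x S) := by
      refine ⟨?_, ?_⟩
      · intro c hc
        rcases Finset.mem_insert.1 hc with rfl | hc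
        · exact hx
        · exact hS.1 c hc
      · intro c hc d hd hcd
        rcases Finset.mem_insert.1 hc with h1 | h1
        · rcases Finset.mem_insert.1 hd with h2 | h2
          · exact absurd (h1.trans h2.symm) hcd
          · rw [h1]
            exact hcon d h2
        · rcases Finset.mem_insert.1 hd with h2 | h2
          · rw [norm_sub_rev, h2]
            exact hcon c h1
          · exact hS.2 c h1 d h2 hcd
    have h2 : (insert x S).card ∈ A := ⟨insert x S, h1, rfl⟩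
    have h3 := le_csSup hB h2
    rw [Finset.card_insert_of_notMem hxS, ← hc] at h3
    omega
  refine ⟨S.image (fun c => (1 / 2 : ℝ) • c), ?_, ?_⟩
  · exact le_trans Finset.card_image_le (Besicovitch.card_le_of_separated S hS.1 hS.2)
  · intro x hx
    obtain ⟨c, hc, hxc⟩ := hmax ((2 : ℝ) • x) (by
      rw [norm_smul]; norm_num; linarith)
    refine ⟨(1 / 2 : ℝ) • c, Finset.mem_image_of_mem _ hc, ?_⟩
    have : x - (1 / 2 : ℝ) • c = (1 / 2 : ℝ) • ((2 : ℝ) • x - c) := by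
      rw [smul_sub, smul_smul]; norm_num
    rw [this, norm_smul]
    norm_num
    linarith

theorem labels {E : Type} [NormedAddCommGroup E] [NormedSpace ℝ E] [FiniteDimensional ℝ E] (t : ℕ) :
    ∃ κ : E → (Fin t → Fin (5 ^ finrank ℝ E)), ∀ x y : E, ‖x‖ ≤ 1 → ‖y‖ ≤ 1 → κ x = κ y →
      ‖x - y‖ ≤ 2 * (1 / 2) ^ t := by
  classical
  obtain ⟨S, hS, hcov⟩ := net (E := E)
  obtain ⟨c0, hc0, -⟩ := hcov 0 (by simp)
  have hK : S.card ≤ 5 ^ finrank ℝ E := hS
  obtain ⟨g, hg⟩ : ∃ g : S → Fin (5 ^ finrank ℝ E), Function.Injective g := by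
    refine ⟨fun s => Fin.castLE hK (S.equivFin s), ?_⟩
    intro a b hab
    exact S.equivFin.injective (Fin.castLE_injective hK hab)
  have hch : ∀ x : E, ∃ c : S, ‖x‖ ≤ 1 → ‖x - c‖ ≤ 1 / 2 := by
    intro x
    by_cases hx : ‖x‖ ≤ 1
    · obtain ⟨c, hc, h⟩ := hcov x hx
      exact ⟨⟨c, hc⟩, fun _ => h⟩
    · exact ⟨⟨c0, hc0⟩, fun h => absurd h hx⟩
  choose c hc using hch
  induction t with
  | zero =>
    refine ⟨fun _ => Fin.elim0, fun x y hx hy _ => ?_⟩
    have := norm_sub_le x y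
    simp
    linarith
  | succ t ih =>
    obtain ⟨κ, hκ⟩ := ih
    refine ⟨fun x => Fin.cons (g (c x)) (κ ((2 : ℝ) • (x - c x))), fun x y hx hy hxy => ?_⟩
    have h1 := Fin.cons_injective2 hxy
    have h2 : c x = c y := hg h1.1
    have h3 := hκ _ _ (by
      rw [norm_smul]; norm_num; linarith [hc x hx]) (by
      rw [norm_smul]; norm_num; linarith [hc y hy]) h1.2
    have h4 : (2 : ℝ) • (x - (c x : E)) - (2 : ℝ) • (y - (c y : E)) = (2 : ℝ) • (x - y) := by
      rw [h2, ← smul_sub]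
      congr 1
      abel
    rw [h4, norm_smul] at h3
    norm_num at h3
    rw [pow_succ]
    norm_num
    linarith

theorem t_net : Pool.Agent.H58.BL.S_NET := by
  classical
  intro δ hδ
  obtain ⟨t, ht⟩ := exists_pow_lt_of_lt_one (show (0 : ℝ) < δ / 2 by linarith)
    (show (1 / 2 : ℝ) < 1 by norm_num)
  refine ⟨5 ^ t, one_le_pow₀ (by norm_num), fun n U => ?_⟩
  obtain ⟨κ, hκ⟩ := labels (E := U) t
  have hpos : 0 < (5 ^ finrank ℝ U) ^ t := by positivity
  refine ⟨(5 ^ finrank ℝ U) ^ t,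
    fun x => if h : x ∈ U then finFunctionFinEquiv (κ ⟨x, h⟩) else ⟨0, hpos⟩, ?_, ?_⟩
  · push_cast
    rw [← pow_mul, ← pow_mul, mul_comm]
  · intro x hx y hy hx1 hy1 hxy
    simp only [hx, hy, dif_pos] at hxy
    have h1 := finFunctionFinEquiv.injective hxy
    have h2 := hκ ⟨x, hx⟩ ⟨y, hy⟩ (by simpa using hx1) (by simpa using hy1) h1
    have h3 : ‖(⟨x, hx⟩ : U) - ⟨y, hy⟩‖ = ‖x - y‖ := rfl
    rw [h3] at h2
    linarith

end Pool.Agent.H440.BL
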